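import Mathlib

/-!
# An infinite-dimensional Noetherian residually nilpotent Lie algebra

For a field `k` of characteristic zero let `W₊` be the Lie algebra of the derivations `f ∂` of `k[X]`
with `X² ∣ f` (the positive part of the Witt algebra, with basis `eᵢ = X ^ (i + 1) ∂`, `i ≥ 1`, and
`[eᵢ, eⱼ] = (j - i) eᵢ₊ⱼ`).  It is infinite-dimensional, residually nilpotent, and it satisfies the
maximal condition on subalgebras.
-/

set_option autoImplicit false

namespace Pool.Agent.Results.MP_d0ec72_al.PositiveWitt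

open Polynomial

universe u

/-- `L` is Noetherian: it satisfies the maximal condition on subalgebras, every ascending chain of
subalgebras is eventually constant. -/
def NoetherianLie (k L : Type u) [Field k] [LieRing L] [LieAlgebra k L] : Prop :=
  ∀ f : ℕ → LieSubalgebra k L, (∀ n, f n ≤ f (n + 1)) → ∃ N, ∀ m, N ≤ m → f m = f N

/-- `L` is approximable by nilpotent Lie algebras (residually nilpotent). -/
def ResiduallyNilpotentLie (k L : Type u) [Field k] [LieRing L] [LieAlgebra k L] : Prop :=
  ∀ x : L, x ≠ 0 → ∃ I : LieIdeal k L, x ∉ I ∧ LieRing.IsNilpotent (L ⧸ I)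

variable (k : Type u) [Field k]

lemma add_mem_W : ∀ {D E : Derivation k k[X] k[X]}, D ∈ {D : Derivation k k[X] k[X] | (X : k[X]) ^ 2 ∣ D X} →
    E ∈ {D : Derivation k k[X] k[X] | (X : k[X]) ^ 2 ∣ D X} →
    D + E ∈ {D : Derivation k k[X] k[X] | (X : k[X]) ^ 2 ∣ D X} := by
  intro a b ha hb
  simpa using dvd_add ha hb

lemma zero_mem_W : (0 : Derivation k k[X] k[X]) ∈ {D : Derivation k k[X] k[X] | (X : k[X]) ^ 2 ∣ D X} := by
  simp

lemma smul_mem_W : ∀ (c : k) {x : Derivation k k[X] k[X]},
    x ∈ {D : Derivation k k[X] k[X] | (X : k[X]) ^ 2 ∣ D X} →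
    c • x ∈ {D : Derivation k k[X] k[X] | (X : k[X]) ^ 2 ∣ D X} := by
  intro c x hx
  obtain ⟨g, hg⟩ := hx
  refine ⟨c • g, ?_⟩
  simp [hg]

lemma lie_mem_W : ∀ {D E : Derivation k k[X] k[X]}, D ∈ {D : Derivation k k[X] k[X] | (X : k[X]) ^ 2 ∣ D X} →
    E ∈ {D : Derivation k k[X] k[X] | (X : k[X]) ^ 2 ∣ D X} →
    ⁅D, E⁆ ∈ {D : Derivation k k[X] k[X] | (X : k[X]) ^ 2 ∣ D X} := by
  intro D E hD hE
  obtain ⟨f, hf⟩ := hD
  obtain ⟨g, hg⟩ := hE
  refine ⟨D g + g * (2 * X * f) - (E f + f * (2 * X * g)), ?_⟩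
  rw [Derivation.commutator_apply, hf, hg]
  simp only [Derivation.leibniz, Derivation.leibniz_pow, hf, hg, smul_eq_mul, nsmul_eq_mul]
  push_cast
  ring

/-- the positive part of the Witt algebra: derivations `D` of `k[X]` with `X² ∣ D X` -/
def W : LieSubalgebra k (Derivation k k[X] k[X]) where
  carrier := {D | (X : k[X]) ^ 2 ∣ D X}
  add_mem' := add_mem_W k
  zero_mem' := zero_mem_W k
  smul_mem' := smul_mem_W k
  lie_mem' := lie_mem_W k

variable {k}

lemma apply_eq (D : Derivation k k[X] k[X]) (f : k[X]) : D f = derivative f * D X := by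
  have h : D = mkDerivation k (D X) := derivation_ext (by simp)
  conv_lhs => rw [h]
  rw [mkDerivation_apply, smul_eq_mul]

lemma mem_W {D : Derivation k k[X] k[X]} : D ∈ W k ↔ (X : k[X]) ^ 2 ∣ D X := Iff.rfl

/-- the polynomial `f` of the derivation `f ∂` -/
noncomputable def pol : W k →ₗ[k] k[X] where
  toFun x := (x : Derivation k k[X] k[X]) X
  map_add' _ _ := rfl
  map_smul' _ _ := rfl

lemma pol_injective : Function.Injective (pol : W k →ₗ[k] k[X]) := by
  intro x y h
  apply Subtype.ext
  exact derivation_ext h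

lemma pol_lie (x y : W k) :
    pol ⁅x, y⁆ = derivative (pol y) * pol x - derivative (pol x) * pol y := by
  change (⁅(x : Derivation k k[X] k[X]), (y : Derivation k k[X] k[X])⁆) X = _
  have h1 := apply_eq (x : Derivation k k[X] k[X]) ((y : Derivation k k[X] k[X]) X)
  have h2 := apply_eq (y : Derivation k k[X] k[X]) ((x : Derivation k k[X] k[X]) X)
  rw [Derivation.commutator_apply, h1, h2]
  rfl

lemma dvd_pol (x : W k) : (X : k[X]) ^ 2 ∣ pol x := x.2

lemma two_le_natDegree {x : W k} (hx : x ≠ 0) : 2 ≤ (pol x).natDegree := by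
  have h0 : pol x ≠ 0 := fun h => hx (pol_injective (by simpa using h))
  have := natDegree_le_of_dvd (dvd_pol x) h0
  simpa using this

/-- leading coefficient of a bracket -/
lemma natDegree_lie [CharZero k] {x y : W k} (hx : x ≠ 0) (hy : y ≠ 0)
    (hne : (pol x).natDegree ≠ (pol y).natDegree) :
    ⁅x, y⁆ ≠ 0 ∧ (pol ⁅x, y⁆).natDegree = (pol x).natDegree + (pol y).natDegree - 1 := by
  have hx2 := two_le_natDegree hx
  have hy2 := two_le_natDegree hy
  have hx0 : pol x ≠ 0 := fun h => hx (pol_injective (by simpa using h))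
  have hy0 : pol y ≠ 0 := fun h => hy (pol_injective (by simpa using h))
  set a := (pol x).natDegree with ha
  set b := (pol y).natDegree with hb
  have hdx : (derivative (pol x)).natDegree ≤ a - 1 := natDegree_derivative_le _
  have hdy : (derivative (pol y)).natDegree ≤ b - 1 := natDegree_derivative_le _
  have hdeg : (pol ⁅x, y⁆).natDegree ≤ a + b - 1 := by
    rw [pol_lie]
    refine (natDegree_sub_le _ _).trans (max_le ?_ ?_)
    · refine natDegree_mul_le.trans ?_
      omega
    · refine natDegree_mul_le.trans ?_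
      omega
  have hcoeff : (pol ⁅x, y⁆).coeff (a + b - 1) =
      ((b : k) - (a : k)) * ((pol x).leadingCoeff * (pol y).leadingCoeff) := by
    rw [pol_lie, coeff_sub]
    have e1 : a + b - 1 = (b - 1) + a := by omega
    have e2 : a + b - 1 = (a - 1) + b := by omega
    have h1 : (derivative (pol y) * pol x).coeff (a + b - 1) =
        (derivative (pol y)).coeff (b - 1) * (pol x).coeff a := by
      rw [e1]
      exact coeff_mul_add_eq_of_natDegree_le hdy le_rfl
    have h2 : (derivative (pol x) * pol y).coeff (a + b - 1) =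
        (derivative (pol x)).coeff (a - 1) * (pol y).coeff b := by
      rw [e2]
      exact coeff_mul_add_eq_of_natDegree_le hdx le_rfl
    rw [h1, h2, coeff_derivative, coeff_derivative]
    have ea : a - 1 + 1 = a := by omega
    have eb : b - 1 + 1 = b := by omega
    rw [ea, eb]
    have ca : ((a - 1 : ℕ) : k) + 1 = (a : k) := by
      exact_mod_cast congrArg (Nat.cast : ℕ → k) ea
    have cb : ((b - 1 : ℕ) : k) + 1 = (b : k) := by
      exact_mod_cast congrArg (Nat.cast : ℕ → k) eb
    rw [ca, cb]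
    have la : (pol x).coeff a = (pol x).leadingCoeff := rfl
    have lb : (pol y).coeff b = (pol y).leadingCoeff := rfl
    rw [la, lb]
    ring
  have hne0 : (pol ⁅x, y⁆).coeff (a + b - 1) ≠ 0 := by
    rw [hcoeff]
    refine mul_ne_zero ?_ (mul_ne_zero (leadingCoeff_ne_zero.mpr hx0) (leadingCoeff_ne_zero.mpr hy0))
    rw [sub_ne_zero]
    exact_mod_cast hne.symm
  refine ⟨?_, ?_⟩
  · intro h0
    rw [h0] at hne0
    simp at hne0
  · exact le_antisymm hdeg (le_natDegree_of_ne_zero hne0)

/-- the set of `i` such that some element of `S` has top term a multiple of `eᵢ` -/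
def tops (S : LieSubalgebra k (W k)) : Set ℕ :=
  {n | ∃ x ∈ S, x ≠ 0 ∧ (pol x).natDegree = n + 1}

lemma tops_mono {S T : LieSubalgebra k (W k)} (h : S ≤ T) : tops S ⊆ tops T := by
  rintro n ⟨x, hx, h0, hd⟩
  exact ⟨x, h hx, h0, hd⟩

lemma tops_pos {S : LieSubalgebra k (W k)} {n : ℕ} (h : n ∈ tops S) : 1 ≤ n := by
  obtain ⟨x, _, h0, hd⟩ := h
  have := two_le_natDegree h0
  omega

lemma tops_add [CharZero k] {S : LieSubalgebra k (W k)} {m n : ℕ} (hm : m ∈ tops S)
    (hn : n ∈ tops S) (hne : m ≠ n) : m + n ∈ tops S := by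
  obtain ⟨x, hx, hx0, hxd⟩ := hm
  obtain ⟨y, hy, hy0, hyd⟩ := hn
  obtain ⟨h1, h2⟩ := natDegree_lie hx0 hy0 (by omega)
  exact ⟨⁅x, y⁆, S.lie_mem hx hy, h1, by omega⟩

lemma eq_of_tops {S T : LieSubalgebra k (W k)} (h : S ≤ T) (ht : tops T ⊆ tops S) : S = T := by
  refine le_antisymm h ?_
  have key : ∀ n : ℕ, ∀ x ∈ T, (pol x).natDegree = n → x ∈ S := by
    intro n
    induction n using Nat.strong_induction_on with
    | _ n ih =>
      intro x hx hn
      by_cases hx0 : x = 0
      · rw [hx0]; exact S.zero_mem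
      have hx2 := two_le_natDegree hx0
      have hmem : (pol x).natDegree - 1 ∈ tops T := ⟨x, hx, hx0, by omega⟩
      obtain ⟨y, hy, hy0, hyd⟩ := ht hmem
      have hdeg : (pol y).natDegree = (pol x).natDegree := by omega
      have hpx : pol x ≠ 0 := fun h => hx0 (pol_injective (by simpa using h))
      have hpy : pol y ≠ 0 := fun h => hy0 (pol_injective (by simpa using h))
      set c : k := (pol x).leadingCoeff / (pol y).leadingCoeff with hc
      have hly : (pol y).leadingCoeff ≠ 0 := leadingCoeff_ne_zero.mpr hpy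
      have hlx : (pol x).leadingCoeff ≠ 0 := leadingCoeff_ne_zero.mpr hpx
      have hc0 : c ≠ 0 := div_ne_zero hlx hly
      have hz : x - c • y ∈ S := by
        by_cases hz0 : x - c • y = 0
        · rw [hz0]; exact S.zero_mem
        have hlt : (pol (x - c • y)).natDegree < n := by
          have hpz : pol (x - c • y) ≠ 0 := fun h => hz0 (pol_injective (by simpa using h))
          rw [map_sub, map_smul] at hpz ⊢
          have hd : (pol x).degree = (c • pol y).degree := by
            rw [smul_eq_C_mul, degree_C_mul hc0,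
              degree_eq_natDegree hpx, degree_eq_natDegree hpy, hdeg]
          have hl : (pol x).leadingCoeff = (c • pol y).leadingCoeff := by
            rw [smul_eq_C_mul, leadingCoeff_mul, leadingCoeff_C, hc, div_mul_cancel₀ _ hly]
          have := degree_sub_lt_left hd hpx hl
          rw [← hn]
          exact natDegree_lt_natDegree hpz this
        exact ih _ hlt _ (T.sub_mem hx (T.smul_mem _ (h hy))) rfl
      have : x = (x - c • y) + c • y := by abel
      rw [this]
      exact S.add_mem hz (S.smul_mem _ hy)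
  exact fun x hx => key _ x hx rfl

/-- ascending chains of sets of positive integers closed under sums of two different elements
become constant -/
lemma chain_sets (A : ℕ → Set ℕ) (hmono : Monotone A) (hpos : ∀ n, ∀ a ∈ A n, 1 ≤ a)
    (hadd : ∀ n, ∀ a ∈ A n, ∀ b ∈ A n, a ≠ b → a + b ∈ A n) :
    ∃ N, ∀ m, N ≤ m → A m ⊆ A N := by
  by_cases hU : ∃ n a, a ∈ A n
  swap
  · refine ⟨0, fun m _ a ha => ?_⟩
    exact absurd ⟨m, a, ha⟩ hU
  obtain ⟨n0, a, ha⟩ := hU
  have ha1 := hpos _ _ ha
  have step : ∀ r : ℕ, ∃ N, n0 ≤ N ∧ ∀ m, ∀ c ∈ A m, c ≠ a → c % a = r → c ∈ A N := by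
    intro r
    by_cases hr : ∃ b, b ≠ a ∧ b % a = r ∧ ∃ n, b ∈ A n
    · classical
      obtain ⟨hb1, hb2, n1, hb3⟩ := Nat.find_spec hr
      set b := Nat.find hr with hb
      refine ⟨max n0 n1, le_max_left _ _, ?_⟩
      intro m c hc hca hcr
      have hle : b ≤ c := Nat.find_min' hr ⟨hca, hcr, m, hc⟩
      have hmod : c % a = b % a := by rw [hcr, hb2]
      have hdiv : a ∣ c - b := (Nat.modEq_iff_dvd' hle).mp hmod.symm
      obtain ⟨t, ht⟩ := hdiv
      have hct : c = b + a * t := by omega
      have hbpos : 1 ≤ b := hpos _ _ hb3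
      have aN : a ∈ A (max n0 n1) := hmono (le_max_left _ _) ha
      have bN : b ∈ A (max n0 n1) := hmono (le_max_right _ _) hb3
      have all : ∀ t : ℕ, b + a * t ∈ A (max n0 n1) := by
        intro t
        induction t with
        | zero => simpa using bN
        | succ t ih =>
          have hne : b + a * t ≠ a := by
            rcases Nat.eq_zero_or_pos t with h | h
            · subst h; simpa using hb1
            · have : a * 1 ≤ a * t := Nat.mul_le_mul_left _ h
              omega
          have := hadd _ _ ih _ aN hne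
          have e : b + a * (t + 1) = b + a * t + a := by ring
          rw [e]
          exact this
      rw [hct]
      exact all t
    · refine ⟨n0, le_rfl, ?_⟩
      intro m c hc hca hcr
      exact absurd ⟨c, hca, hcr, m, hc⟩ hr
  choose N hN0 hN using step
  refine ⟨(Finset.range (a + 1)).sup N, fun m _ c hc => ?_⟩
  have hsup : ∀ r, r ≤ a → N r ≤ (Finset.range (a + 1)).sup N := fun r hr =>
    Finset.le_sup (f := N) (Finset.mem_range.mpr (by omega))
  by_cases hca : c = a
  · rw [hca]
    exact hmono ((hN0 0).trans (hsup 0 (Nat.zero_le _))) ha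
  · have hlt : c % a < a := Nat.mod_lt _ (by omega)
    exact hmono (hsup _ hlt.le) (hN (c % a) m c hc hca rfl)

lemma noetherian [CharZero k] (f : ℕ → LieSubalgebra k (W k)) (hf : Monotone f) :
    ∃ N, ∀ m, N ≤ m → f m = f N := by
  obtain ⟨N, hN⟩ := chain_sets (fun n => tops (f n)) (fun a b h => tops_mono (hf h))
    (fun n a h => tops_pos h) (fun n a ha b hb hne => tops_add ha hb hne)
  exact ⟨N, fun m hm => (eq_of_tops (hf hm) (hN m hm)).symm⟩

/-- the ideal spanned by `eᵢ`, `i > n` -/
def I (n : ℕ) : LieIdeal k (W k) where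
  carrier := {x | (X : k[X]) ^ (n + 2) ∣ pol x}
  add_mem' := by
    intro a b ha hb
    change _ ∣ pol (a + b)
    rw [map_add]
    exact dvd_add ha hb
  zero_mem' := by
    change _ ∣ pol 0
    simp
  smul_mem' := by
    intro c x hx
    change _ ∣ pol (c • x)
    rw [map_smul, smul_eq_C_mul]
    exact Dvd.dvd.mul_left hx _
  lie_mem := by
    intro x y hy
    change _ ∣ pol ⁅x, y⁆
    obtain ⟨g, hg⟩ := (show (X : k[X]) ^ (n + 2) ∣ pol y from hy)
    obtain ⟨f, hf⟩ := dvd_pol x
    rw [pol_lie]
    refine dvd_sub ?_ ?_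
    · rw [hg, hf, derivative_mul, derivative_X_pow]
      refine ⟨C ((n + 2 : ℕ) : k) * g * X * f + derivative g * X ^ 2 * f, ?_⟩
      have e : n + 2 - 1 = n + 1 := by omega
      rw [e]
      ring
    · rw [hg]
      exact ⟨derivative (pol x) * g, by ring⟩

lemma mem_I {n : ℕ} {x : W k} : x ∈ (I n : LieIdeal k (W k)) ↔ (X : k[X]) ^ (n + 2) ∣ pol x :=
  Iff.rfl

lemma lie_mem_I {n : ℕ} (x y : W k) (hy : y ∈ (I n : LieIdeal k (W k))) :
    ⁅x, y⁆ ∈ (I (n + 1) : LieIdeal k (W k)) := by
  rw [mem_I] at hy ⊢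
  obtain ⟨g, hg⟩ := hy
  obtain ⟨f, hf⟩ := dvd_pol x
  rw [pol_lie]
  refine dvd_sub ?_ ?_
  · rw [hg, hf, derivative_mul, derivative_X_pow]
    refine ⟨C ((n + 2 : ℕ) : k) * g * f + derivative g * X * f, ?_⟩
    have e : n + 2 - 1 = n + 1 := by omega
    rw [e]
    ring
  · rw [hg, hf, derivative_mul, derivative_X_pow]
    refine ⟨C ((2 : ℕ) : k) * f * g + X * derivative f * g, ?_⟩
    have e : 2 - 1 = 1 := rfl
    rw [e]
    ring

lemma lcs_le (n : ℕ) : LieModule.lowerCentralSeries k (W k) (W k) n ≤ I n := by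
  induction n with
  | zero =>
    intro x _
    rw [mem_I]
    exact dvd_pol x
  | succ n ih =>
    rw [LieModule.lowerCentralSeries_succ, LieSubmodule.lieIdeal_oper_eq_span,
      LieSubmodule.lieSpan_le]
    rintro _ ⟨⟨x, _⟩, ⟨y, hy⟩, rfl⟩
    exact lie_mem_I x y (ih hy)

lemma resNil (x : W k) (hx : x ≠ 0) : ∃ n, x ∉ (I n : LieIdeal k (W k)) := by
  have hpx : pol x ≠ 0 := fun h => hx (pol_injective (by simpa using h))
  refine ⟨(pol x).natDegree, fun h => ?_⟩
  rw [mem_I] at h
  have := natDegree_le_of_dvd h hpx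
  rw [natDegree_X_pow] at this
  omega

lemma quot_nilpotent (n : ℕ) : LieRing.IsNilpotent (W k ⧸ (I n : LieIdeal k (W k))) := by
  have h : LieModule.IsNilpotent (W k) (W k ⧸ (I n : LieIdeal k (W k))) :=
    (LieModule.isNilpotent_quotient_iff k (W k) (W k) (I n)).mpr ⟨n, lcs_le n⟩
  simp only [LieRing.IsNilpotent, LieModule.isNilpotent_iff k] at h ⊢
  peel h with m hm
  simp [← LieSubmodule.toSubmodule_inj, ← coe_lowerCentralSeries_ideal_quot_eq, hm]

lemma infinite_dim : ¬ FiniteDimensional k (W k) := by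
  intro hfd
  have hmem : ∀ i : ℕ, mkDerivation k ((X : k[X]) ^ (i + 2)) ∈ W k := by
    intro i
    rw [mem_W, mkDerivation_X, pow_add]
    exact Dvd.intro_left _ rfl
  let e : ℕ → W k := fun i => ⟨mkDerivation k ((X : k[X]) ^ (i + 2)), hmem i⟩
  have hli : LinearIndependent k (fun i => pol (e i)) := by
    have h1 : LinearIndependent k (fun n : ℕ => (X : k[X]) ^ n) := by
      have := (Polynomial.basisMonomials k).linearIndependent
      convert this using 1
      ext1 n
      simp [X_pow_eq_monomial]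
    have h2 := h1.comp (fun i : ℕ => i + 2) (fun a b h => by simpa using h)
    convert h2 using 1
    ext1 i
    change mkDerivation k ((X : k[X]) ^ (i + 2)) X = _
    simp
  have hli' : LinearIndependent k e := LinearIndependent.of_comp pol hli
  exact Module.Finite.not_linearIndependent_of_infinite e hli'

lemma main [CharZero k] :
    ¬ FiniteDimensional k (W k) ∧ NoetherianLie k (W k) ∧ ResiduallyNilpotentLie k (W k) := by
  refine ⟨infinite_dim, ?_, ?_⟩
  · intro f hf
    exact noetherian f (monotone_nat_of_le_succ hf)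
  · intro x hx
    obtain ⟨n, hn⟩ := resNil x hx
    exact ⟨I n, hn, quot_nilpotent n⟩

/-- There are a field `k` and an infinite-dimensional Lie algebra over `k` that is Noetherian and
approximable by nilpotent Lie algebras; moreover every field of characteristic zero has one (the
positive part `W k` of the Witt algebra). -/
theorem result :
    (∃ (k : Type) (_ : Field k) (L : Type) (_ : LieRing L) (_ : LieAlgebra k L),
      ¬ FiniteDimensional k L ∧ NoetherianLie k L ∧ ResiduallyNilpotentLie k L) ∧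
    (∀ (k : Type u) [Field k] [CharZero k], ∃ (L : Type u) (_ : LieRing L) (_ : LieAlgebra k L),
      ¬ FiniteDimensional k L ∧ NoetherianLie k L ∧ ResiduallyNilpotentLie k L) :=
  ⟨⟨ℚ, inferInstance, W ℚ, inferInstance, inferInstance, main⟩,
    fun k _ _ => ⟨W k, inferInstance, inferInstance, main⟩⟩

end Pool.Agent.Results.MP_d0ec72_al.PositiveWitt
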